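import Pool.Agent.Lib.VdW.All

set_option autoImplicit false

/-!
# Problem MP_474199_co: approximate moral victories of the second player, gap `2000 log₂ n`

For every sufficiently large `N` there is `n` with `n ≤ log₂ N ≤ n + 2000 log₂ n` such that the second
player has one strategy in the game on `{1, ..., N}` which guarantees both that he owns an `n`-term arithmetic
progression at the end and that the first player owns no progression with `n + 2000 ⌊log₂ n⌋` terms.

A strategy is a function `σ` from lists of moves to moves; a play is a list `l` of different numbers of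
`{1, ..., N}`, the moves of the first player have even indices, those of the second player odd indices; the
format is that of the problem's Lean statement.
-/

namespace Pool.Agent.Results.MP_474199_co.LogGap

theorem result : ∃ N₀ : ℕ, ∀ N ≥ N₀, ∃ n : ℕ,
    n ≤ Nat.log 2 N ∧ Nat.log 2 N ≤ n + 2000 * Nat.log 2 n ∧
    ∃ σ : List ℕ → ℕ, ∀ l : List ℕ, l.Nodup → (∀ x ∈ l, 1 ≤ x ∧ x ≤ N) →
      (∀ i : ℕ, i < l.length → Odd i → l[i]? = some (σ (l.take i))) →
      ((Odd l.length ∧ l.length < N → 1 ≤ σ l ∧ σ l ≤ N ∧ σ l ∉ l) ∧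
       (l.length = N →
         (∃ a d : ℕ, 1 ≤ d ∧ ∀ k : ℕ, k < n → ∃ i : ℕ, Odd i ∧ l[i]? = some (a + k * d)) ∧
         ¬ ∃ a d : ℕ, 1 ≤ d ∧ ∀ k : ℕ, k < n + 2000 * Nat.log 2 n →
            ∃ i : ℕ, Even i ∧ l[i]? = some (a + k * d))) :=
  ⟨_, VdWG.tDFin2 (VdWG.tDF VdWG.tDAp VdWG.tDZ) (VdWG.tDS VdWG.tDAp) VdWG.tDPa VdWG.tDPb
    VdWG.allWin⟩

end Pool.Agent.Results.MP_474199_co.LogGap
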